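import Pool.Agent.K6.H34.TT.StmX
import Pool.Agent.K6.H5.TT.Low2

/-!
# Project TT (helper34), part LOWX: there are many curves with torsion group `Z/2 x Z/2`
-/

set_option autoImplicit false

namespace Pool.Agent.K6.H84.TT

open Finset Pool.Agent.K6.H34.TT Pool.Agent.K6.H5.TT WeierstrassCurve

/-! ### The torsion group -/

lemma two_tors {A B : ℤ} {a b : ℚ} (hA : (A : ℚ) = -(a ^ 2 + a * b + b ^ 2))
    (hB : (B : ℚ) = a * b * (a + b)) (hP : (E A B).toAffine.Nonsingular a 0)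
    (hQ : (E A B).toAffine.Nonsingular b 0) (hR : (E A B).toAffine.Nonsingular (-(a + b)) 0)
    (P : (E A B).toAffine.Point) (h : P + P = 0) :
    P ∈ ({0, .some _ _ hP, .some _ _ hQ, .some _ _ hR} : Set (E A B).toAffine.Point) := by
  rcases P with _ | ⟨x, y, hxy⟩
  · left; rfl
  · have h1 := eq_neg_of_add_eq_zero_left h
    rw [Affine.Point.neg_some, Affine.Point.some.injEq] at h1
    have hy : y = 0 := by
      have := h1.2
      rw [negE] at this
      linarith
    subst hy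
    have heq := hxy.left
    rw [Affine.equation_iff] at heq
    simp only [E] at heq
    have h2 : (x - a) * (x - b) * (x + (a + b)) = 0 := by
      linear_combination (-1) * heq - x * hA - hB
    right
    rcases mul_eq_zero.1 h2 with h3 | h3
    · rcases mul_eq_zero.1 h3 with h4 | h4
      · left
        have : x = a := by linarith
        subst this
        rfl
      · right; left
        have : x = b := by linarith
        subst this
        rfl
    · right; right
      have : x = -(a + b) := by linarith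
      subst this
      rfl

lemma tors_equiv {A B : ℤ} {a b : ℚ} (hA : (A : ℚ) = -(a ^ 2 + a * b + b ^ 2))
    (hB : (B : ℚ) = a * b * (a + b)) (h1 : a - b ≠ 0) (h2 : 2 * a + b ≠ 0) (h3 : a + 2 * b ≠ 0)
    (ht : ∀ P : (E A B).toAffine.Point, IsOfFinAddOrder P → P + P = 0) :
    Nonempty (ZMod 2 × ZMod 2 ≃+ AddCommGroup.torsion (E A B).toAffine.Point) := by
  have hP : (E A B).toAffine.Nonsingular a 0 := by
    apply nonsE
    · rw [hA, hB]; ring
    · rw [hA]
      have : 3 * a ^ 2 + -(a ^ 2 + a * b + b ^ 2) = (a - b) * (2 * a + b) := by ring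
      rw [this]; positivity
  have hQ : (E A B).toAffine.Nonsingular b 0 := by
    apply nonsE
    · rw [hA, hB]; ring
    · rw [hA]
      have : 3 * b ^ 2 + -(a ^ 2 + a * b + b ^ 2) = -((a - b) * (a + 2 * b)) := by ring
      rw [this, neg_ne_zero]; positivity
  have hR : (E A B).toAffine.Nonsingular (-(a + b)) 0 := by
    apply nonsE
    · rw [hA, hB]; ring
    · rw [hA]
      have : 3 * (-(a + b)) ^ 2 + -(a ^ 2 + a * b + b ^ 2) = (2 * a + b) * (a + 2 * b) := by ring
      rw [this]; positivity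
  obtain ⟨f, hf⟩ := embE hA hB h1 h2 h3
  have hd : ∀ z : ZMod 2 × ZMod 2, z + z = 0 := by decide
  have hff : ∀ z, f z + f z = 0 := fun z => by rw [← map_add, hd, map_zero]
  have hfin : ∀ z, IsOfFinAddOrder (f z) := fun z => by
    rw [isOfFinAddOrder_iff_nsmul_eq_zero]
    exact ⟨2, by norm_num, by rw [two_nsmul, hff]⟩
  set S : Set (E A B).toAffine.Point := {0, .some _ _ hP, .some _ _ hQ, .some _ _ hR} with hS
  have hSc : S.ncard ≤ 4 := by
    rw [hS]
    refine (Set.ncard_insert_le _ _).trans ?_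
    refine (Nat.add_le_add_right ((Set.ncard_insert_le _ _).trans
      (Nat.add_le_add_right ((Set.ncard_insert_le _ _).trans
        (Nat.add_le_add_right (Set.ncard_singleton _).le 1)) 1)) 1)
  have hSf : S.Finite := by
    rw [hS]; exact Set.toFinite _
  have hsub : Set.range f ⊆ S := by
    rintro _ ⟨z, rfl⟩
    exact two_tors hA hB hP hQ hR _ (hff z)
  have hcard : (Set.range f).ncard = 4 := by
    rw [← Set.image_univ, Set.ncard_image_of_injective _ hf, Set.ncard_univ]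
    simp
  have hEq : Set.range f = S := Set.eq_of_subset_of_ncard_le hsub (by rw [hcard]; exact hSc) hSf
  have hmem : ∀ z, f z ∈ AddCommGroup.torsion (E A B).toAffine.Point := fun z => hfin z
  refine ⟨AddEquiv.ofBijective (f.codRestrict _ hmem) ⟨?_, ?_⟩⟩
  · intro z z' hz
    apply hf
    exact congrArg Subtype.val hz
  · rintro ⟨P, hPt⟩
    have h4 : P + P = 0 := ht P hPt
    have h5 := two_tors hA hB hP hQ hR P h4
    rw [← hS, ← hEq] at h5
    obtain ⟨z, hz⟩ := h5
    exact ⟨z, Subtype.ext hz⟩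

/-! ### Coprime pairs -/

lemma card_j (N p : ℕ) (hp : 0 < p) :
    ((Ico N (2 * N)).filter (fun j => p ∣ 15 * j + 1)).card ≤ N / p + 1 := by
  rw [← card_range (N / p + 1)]
  apply card_le_card_of_injOn (fun j => (j - N) / p)
  · intro j hj
    simp only [coe_filter, mem_Ico, Set.mem_setOf_eq] at hj
    simp only [coe_range, Set.mem_Iio]
    exact Nat.lt_succ_of_le (Nat.div_le_div_right (by omega))
  · intro j hj j' hj' h
    simp only [coe_filter, mem_Ico, Set.mem_setOf_eq] at hj hj'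
    simp only at h
    have e1 := Nat.div_add_mod (j - N) p
    have e2 := Nat.div_add_mod (j' - N) p
    have e3 := Nat.mod_lt (j - N) hp
    have e4 := Nat.mod_lt (j' - N) hp
    rw [h] at e1
    obtain ⟨k, hk⟩ := hj.2
    obtain ⟨k', hk'⟩ := hj'.2
    have hcop : IsCoprime (p : ℤ) 15 := ⟨k, -j, by
      have : (15 * (j : ℤ) + 1) = p * k := by exact_mod_cast hk
      linarith⟩
    have hdvd : (p : ℤ) ∣ 15 * ((j : ℤ) - j') := ⟨k - k', by
      have h1 : (15 * (j : ℤ) + 1) = p * k := by exact_mod_cast hk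
      have h2 : (15 * (j' : ℤ) + 1) = p * k' := by exact_mod_cast hk'
      linear_combination h1 - h2⟩
    have hdvd' : (p : ℤ) ∣ (j : ℤ) - j' := hcop.dvd_of_dvd_mul_left hdvd
    have habs : |(j : ℤ) - j'| < p := by
      have f1 : (j : ℤ) - N = p * ((j' - N) / p : ℕ) + ((j - N) % p : ℕ) := by
        have : ((j - N : ℕ) : ℤ) = (j : ℤ) - N := by
          rw [Nat.cast_sub hj.1.1]
        rw [← this]
        exact_mod_cast e1.symm
      have f2 : (j' : ℤ) - N = p * ((j' - N) / p : ℕ) + ((j' - N) % p : ℕ) := by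
        have : ((j' - N : ℕ) : ℤ) = (j' : ℤ) - N := by
          rw [Nat.cast_sub hj'.1.1]
        rw [← this]
        exact_mod_cast e2.symm
      rw [abs_lt]
      constructor <;> · push_cast at *; omega
    have := Int.eq_zero_of_abs_lt_dvd hdvd' habs
    omega

/-- the pairs `(i, j)` -/
def PP (N : ℕ) : Finset (ℕ × ℕ) :=
  (Ioc 0 N ×ˢ Ico N (2 * N)).filter (fun t => t.1.Coprime (15 * t.2 + 1))

lemma card_PP (N : ℕ) (hN : 6 ≤ N) : (N : ℝ) ^ 2 ≤ 6 * (PP N).card := by
  classical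
  set U : Finset (ℕ × ℕ) := Ioc 0 N ×ˢ Ico N (2 * N) with hU
  have hUc : U.card = N * N := by
    rw [hU, card_product, Nat.card_Ioc, Nat.card_Ico]
    congr 1
    omega
  set Ps : Finset ℕ := insert 2 (Ioc 6 N) with hPs
  have hsub : U ⊆ PP N ∪ Ps.biUnion (fun p => (Ioc 0 N).filter (fun i => p ∣ i) ×ˢ
      (Ico N (2 * N)).filter (fun j => p ∣ 15 * j + 1)) := by
    intro t ht
    rw [mem_union]
    by_cases hc : t.1.Coprime (15 * t.2 + 1)
    · left
      exact mem_filter.2 ⟨ht, hc⟩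
    · right
      obtain ⟨p, hp, hp1, hp2⟩ := Nat.Prime.not_coprime_iff_dvd.1 hc
      rw [hU, mem_product, mem_Ioc, mem_Ico] at ht
      rw [mem_biUnion]
      refine ⟨p, ?_, ?_⟩
      · rw [hPs, mem_insert, mem_Ioc]
        have h1 : p ≤ N := (Nat.le_of_dvd ht.1.1 hp1).trans ht.1.2
        by_contra hcon
        push Not at hcon
        have h2 : p ≤ 6 := by
          by_contra h
          exact absurd (hcon.2 (by omega)) (by omega)
        have h3 := hp.two_le
        have h4 := hcon.1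
        interval_cases p
        · exact h4 rfl
        · omega
        · exact absurd hp (by norm_num)
        · omega
        · exact absurd hp (by norm_num)
      · rw [mem_product, mem_filter, mem_filter, mem_Ioc, mem_Ico]
        exact ⟨⟨ht.1, hp1⟩, ht.2, hp2⟩
  have h1 := card_le_card hsub
  have h2 := h1.trans (card_union_le _ _)
  have h3 : (Ps.biUnion (fun p => (Ioc 0 N).filter (fun i => p ∣ i) ×ˢ
      (Ico N (2 * N)).filter (fun j => p ∣ 15 * j + 1))).card ≤
      ∑ p ∈ Ps, (N / p) * (N / p + 1) := by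
    refine card_biUnion_le.trans (sum_le_sum fun p hp => ?_)
    rw [card_product, Nat.Ioc_filter_dvd_card_eq_div]
    apply Nat.mul_le_mul_left
    apply card_j
    rw [hPs, mem_insert, mem_Ioc] at hp
    rcases hp with rfl | hp
    · norm_num
    · omega
  have hN0 : (0 : ℝ) < N := by exact_mod_cast (by omega : 0 < N)
  have h4 : (∑ p ∈ Ps, ((N / p : ℕ) : ℝ) * ((N / p : ℕ) + 1)) ≤
      ∑ p ∈ Ps, 2 * (N : ℝ) ^ 2 * ((p : ℝ) ^ 2)⁻¹ := by
    refine sum_le_sum fun p hp => ?_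
    have hp' : 0 < p ∧ p ≤ N := by
      rw [hPs, mem_insert, mem_Ioc] at hp
      omega
    have hp0 : (0 : ℝ) < p := by exact_mod_cast hp'.1
    have hpN : (p : ℝ) ≤ N := by exact_mod_cast hp'.2
    have e1 : ((N / p : ℕ) : ℝ) ≤ N / p := Nat.cast_div_le
    have e2 : (1 : ℝ) ≤ N / p := (one_le_div hp0).2 hpN
    have e3 : (0 : ℝ) ≤ ((N / p : ℕ) : ℝ) := Nat.cast_nonneg _
    calc ((N / p : ℕ) : ℝ) * ((N / p : ℕ) + 1) ≤ (N / p) * (N / p + N / p) := by gcongr
      _ = 2 * (N : ℝ) ^ 2 * ((p : ℝ) ^ 2)⁻¹ := by field_simp; ring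
  have h5 : ∑ p ∈ Ps, 2 * (N : ℝ) ^ 2 * ((p : ℝ) ^ 2)⁻¹ ≤ 5 / 6 * (N : ℝ) ^ 2 := by
    rw [← mul_sum, hPs, sum_insert (by simp)]
    have := sum_Ioc_inv_sq_le_sub (α := ℝ) (k := 6) (n := N) (by norm_num) hN
    have e1 : (0 : ℝ) < (N : ℝ)⁻¹ := by positivity
    have e2 : (∑ p ∈ Ioc 6 N, ((p : ℝ) ^ 2)⁻¹) ≤ 1 / 6 := by
      refine this.trans ?_
      have e4 : (((6 : ℕ) : ℝ))⁻¹ = 1 / 6 := by norm_num
      rw [e4]
      linarith
    have e3 : (((2 : ℕ) : ℝ) ^ 2)⁻¹ + ∑ p ∈ Ioc 6 N, ((p : ℝ) ^ 2)⁻¹ ≤ 5 / 12 := by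
      have e4 : (((2 : ℕ) : ℝ) ^ 2)⁻¹ = 1 / 4 := by norm_num
      rw [e4]
      linarith
    calc 2 * (N : ℝ) ^ 2 * ((((2 : ℕ) : ℝ) ^ 2)⁻¹ + ∑ p ∈ Ioc 6 N, ((p : ℝ) ^ 2)⁻¹)
        ≤ 2 * (N : ℝ) ^ 2 * (5 / 12) := by gcongr
      _ = 5 / 6 * (N : ℝ) ^ 2 := by ring
  have h6 : (U.card : ℝ) ≤ (PP N).card + ∑ p ∈ Ps, ((N / p : ℕ) : ℝ) * ((N / p : ℕ) + 1) := by
    have := h2.trans (Nat.add_le_add_left h3 _)
    exact_mod_cast this
  rw [hUc] at h6
  push_cast at h6
  nlinarith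

/-! ### The family -/

theorem mem_famX (h : TORX) {T H i j : ℕ} (hi : 0 < i) (hij : i ≤ j) (hj : 15 * j + 1 ≤ T)
    (hc : i.Coprime (15 * j + 1)) (hH : 108 * T ^ 6 ≤ H) :
    cf2 (15 * i, 15 * j + 1) ∈ FamX H := by
  have hc' : (15 * j + 1).Coprime (15 * i) := by
    apply Nat.Coprime.mul_right
    · rw [Nat.coprime_mul_left_add_left]
      exact Nat.coprime_one_left _
    · exact hc.symm
  have h1 := mem_fam (T := T) (H := H) (a := 15 * j + 1) (b := 15 * i) (by omega) (by omega) hj hc' hH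
  have h2 : cf2 (15 * j + 1, 15 * i) = cf2 (15 * i, 15 * j + 1) := by
    simp only [cf2, Prod.mk.injEq]
    constructor <;> ring
  rw [h2] at h1
  simp only [Fam, mem_filter] at h1
  simp only [FamX, mem_filter]
  refine ⟨h1.1, h1.2.1, h1.2.2.1, h1.2.2.2.1, h1.2.2.2.2.1, ?_⟩
  have hab : (15 * (i : ℚ)) < 15 * j + 1 := by
    have : 15 * i < 15 * j + 1 := by omega
    exact_mod_cast this
  have hi0 : (0 : ℚ) < i := by exact_mod_cast hi
  have hj0 : (0 : ℚ) < 15 * j + 1 := by positivity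
  apply tors_equiv (a := 15 * (i : ℚ)) (b := 15 * (j : ℚ) + 1)
  · simp only [cf2]; push_cast; ring
  · simp only [cf2]; push_cast; ring
  · intro h
    linarith
  · intro h
    linarith
  · intro h
    linarith
  · intro P hP
    exact h ((15 * i : ℕ) : ℤ) ((15 * j + 1 : ℕ) : ℤ) (by omega) (by omega) P hP

theorem lowx_of (h : TORX) : LOWX := by
  refine ⟨1 / 21600, 108, 180, by norm_num, fun T H hT hH => ?_⟩
  set N : ℕ := T / 30 with hN
  have hN6 : 6 ≤ N := by omega
  have h1 : (PP N).card ≤ (FamX H).card := by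
    apply card_le_card_of_injOn (fun t => cf2 (15 * t.1, 15 * t.2 + 1))
    · intro t ht
      have ht' : t ∈ PP N := ht
      rw [PP, mem_filter, mem_product, mem_Ioc, mem_Ico] at ht'
      obtain ⟨⟨⟨k1, k2⟩, k3, k4⟩, k5⟩ := ht'
      exact mem_famX h k1 (by omega) (by omega) k5 hH
    · intro t ht t' ht' hh
      have ht1 : t ∈ PP N := ht
      have ht1' : t' ∈ PP N := ht'
      rw [PP, mem_filter, mem_product, mem_Ioc, mem_Ico] at ht1 ht1'
      obtain ⟨⟨⟨k1, k2⟩, k3, k4⟩, k5⟩ := ht1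
      obtain ⟨⟨⟨k1', k2'⟩, k3', k4'⟩, k5'⟩ := ht1'
      have hh' : cf2 (15 * t.1, 15 * t.2 + 1) = cf2 (15 * t'.1, 15 * t'.2 + 1) := hh
      simp only [cf2, Prod.mk.injEq] at hh'
      obtain ⟨g1, g2⟩ := hh'
      obtain ⟨e1, e2⟩ := cf2_inj (a := ((15 * t.2 + 1 : ℕ) : ℤ)) (b := ((15 * t.1 : ℕ) : ℤ))
        (a' := ((15 * t'.2 + 1 : ℕ) : ℤ)) (b' := ((15 * t'.1 : ℕ) : ℤ)) (by omega) (by omega)
        (by omega) (by omega) (by linear_combination g1) (by linear_combination g2)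
      have e1' : t.2 = t'.2 := by omega
      have e2' : t.1 = t'.1 := by omega
      exact Prod.ext e2' e1'
  have h2 := card_PP N hN6
  have h3 : ((PP N).card : ℝ) ≤ ((FamX H).card : ℝ) := by exact_mod_cast h1
  have h4 : (T : ℝ) ≤ 60 * N := by
    have : T ≤ 60 * N := by omega
    exact_mod_cast this
  have h5 : (T : ℝ) ^ 2 ≤ (60 * N) ^ 2 := by gcongr
  nlinarith

end Pool.Agent.K6.H84.TT
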